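import Pool.Agent.Work.MP_c71557_gt.P.Frg
import Pool.Agent.Work.MP_c71557_gt.H.ActDir
import Pool.Agent.Work.MP_c71557_gt.H.QA

set_option autoImplicit false
set_option linter.unusedVariables false

/-!
# MP_c71557_gt, module V/DGtop: the category of squares computes the homology of `Gc` (S-M)

`dgG : DG → sg Gc`, forget the square.  `HIso`: `quillenA_over` and `acy_over`: nonempty (any square,
`g = 1`); directed: for `(a1, g1)`, `(a2, g2)` take `g3 = 1`, `k1 = g1`, `k2 = g2`, `a3` a big square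
containing `g1 '' a1.set ∪ g2 '' a2.set` (compact); thin: `N` is trivial on both sides.
`dg_conn`: `DG` and `V0` are connected (`H0_of_connected`, arrows exist by `Sq_into`).
-/

namespace C715

open CategoryTheory ActCat

/-- forget the square -/
def dgG : DG.Obj ⥤ (sg Gc).Obj :=
  idFun (A := DG) (A' := sg Gc) (fun _ => ()) (fun h => h.1) (fun h => h)

private theorem big_square (K : Set P2) (hK : IsCompact K) : ∃ a : Sq, K ⊆ a.set := by
  obtain ⟨R, hR⟩ := hK.isBounded.subset_closedBall (0 : P2)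
  refine ⟨⟨((0 : P2), max R 1), lt_max_of_lt_right one_pos⟩, hR.trans ?_⟩
  exact Metric.closedBall_subset_closedBall (le_max_left _ _)

theorem dgG_hiso : HIso dgG := by
  refine quillenA_over dgG fun b => ?_
  refine acy_over (A := DG) (A' := sg Gc) (fun _ => ()) (fun h => h.1) (fun h => h) b.o ?_ ?_ ?_
  · exact ⟨⟨((0 : P2), 1), one_pos⟩, 1, Gc.one_mem⟩
  · intro a1 g1 a2 g2 h1 h2
    have h1' : g1 ∈ Gc := h1
    have h2' : g2 ∈ Gc := h2
    have hc1 : IsCompact (g1 '' a1.set) := (isCompact_closedBall _ _).image (Gc_cont h1')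
    have hc2 : IsCompact (g2 '' a2.set) := (isCompact_closedBall _ _).image (Gc_cont h2')
    obtain ⟨a3, ha3⟩ := big_square _ (hc1.union hc2)
    refine ⟨a3, 1, g1, g2, Gc.one_mem, ⟨h1', fun x hx => ha3 (Or.inl ⟨x, hx, rfl⟩)⟩,
      ⟨h2', fun x hx => ha3 (Or.inr ⟨x, hx, rfl⟩)⟩, ?_, ?_⟩
    · change (1 * g1)⁻¹ * g1 ∈ (⊥ : Subgroup (Equiv.Perm P2))
      rw [Subgroup.mem_bot]
      group
    · change (1 * g2)⁻¹ * g2 ∈ (⊥ : Subgroup (Equiv.Perm P2))
      rw [Subgroup.mem_bot]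
      group
  · intro a a' g k k' _ _ _ h
    exact h

theorem v0_conn (A0 : Set P2 → Subgroup (Equiv.Perm P2)) (h : IsWind A0)
    (x : (NC (V0 A0 h).Obj).X 0)
    (hx : Finsupp.linearCombination ℚ (fun _ => (1 : ℚ)) x = 0) :
    x ∈ (NC (V0 A0 h).Obj).Bd 0 := by
  refine H0_of_connected (fun a b => Relation.EqvGen.rel _ _ ?_) x hx
  obtain ⟨g, hg, hgab⟩ := Sq_into a.o b.o
  exact ⟨(V0 A0 h).cl (a := a.o) (b := b.o) g ⟨hg, hgab⟩⟩

theorem dg_conn (x : (NC DG.Obj).X 0)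
    (hx : Finsupp.linearCombination ℚ (fun _ => (1 : ℚ)) x = 0) :
    x ∈ (NC DG.Obj).Bd 0 := by
  refine H0_of_connected (fun a b => Relation.EqvGen.rel _ _ ?_) x hx
  obtain ⟨g, hg, hgab⟩ := Sq_into a.o b.o
  exact ⟨DG.cl (a := a.o) (b := b.o) g ⟨hg, hgab⟩⟩

end C715
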