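import Pool.Agent.Work.MP_c71557_gt.V.FibA
import Pool.Agent.Work.MP_c71557_gt.V.DGtop
import Pool.Agent.Work.MP_c71557_gt.H.RelPt

set_option autoImplicit false
set_option linter.unusedVariables false

/-!
# MP_c71557_gt, module V/A0iso: `H_n (A0 a) → H_n (Gc)` is bijective for `n ≤ 4` (M)

Hypothesis: `H_n (V0) = 0` for `1 ≤ n ≤ 5`.
PROOF.  `rel_act` for `A = DG`, `N' = A0`, the class `S = Serre.triv` (`P V = Subsingleton V`) and
`fibA`: `H_p (V0, pt) = 0` for `p ≤ 5` (`relPt` for `p ≥ 1`, `relPt_zero` with `v0_conn`), so all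
tensor products with `q ≥ 1`, `p + q ≤ 6` vanish; hence for `n ≤ 5` the map
`(relActMap …).H n : H_n (relC (fibIncl a)) → H_n (relC pt) = 0` has kernel zero, so
`H_n (relC (fibIncl a)) = 0` for `n ≤ 5`.  The long exact sequence of
`0 → C (fib a) → C (DG) → relC → 0` (`Cx.coker_SES`, injectivity `fibIncl_inj`, `H/Les`) gives
`H_n (fib a) ≅ H_n (DG)` for `n ≤ 4`.  Finally `fib a → DG → sg Gc` is `sg (A0 a.set) → sg Gc`
(`fib a` and `sg (A0 a.set)` are the same data) and `dgG_hiso`.
-/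

namespace C715

open CategoryTheory ActCat

private theorem les_bij' {K C : Type} [SmallCategory K] [SmallCategory C] (j : K ⥤ C)
    (hj : ∀ n, Function.Injective (fun σ : Sx K n => σ.push j)) (n : ℕ)
    (h1 : Subsingleton ((relC j).H n)) (h2 : Subsingleton ((relC j).H (n + 1))) :
    Function.Bijective (HCmap j n) := by
  have hs := Cx.coker_SES (NCmap j) (NCmap_inj j hj)
  constructor
  · rw [injective_iff_map_eq_zero]
    intro x hx
    obtain ⟨y, rfl⟩ := (Cx.exact_left hs n x).1 hx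
    have : y = 0 := Subsingleton.elim _ _
    rw [this, map_zero]
  · intro y
    exact (Cx.exact_mid hs n y).1 (Subsingleton.elim _ _)

private theorem tens_sub' {V W : Type} [AddCommGroup V] [Module ℚ V] [AddCommGroup W] [Module ℚ W]
    (h : Subsingleton V) : Subsingleton (TensorProduct ℚ V W) := by
  refine ⟨fun a b => ?_⟩
  have key : ∀ x : TensorProduct ℚ V W, x = 0 := by
    intro x
    induction x using TensorProduct.induction_on with
    | zero => rfl
    | tmul v w => rw [Subsingleton.elim v 0, TensorProduct.zero_tmul]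
    | add x y hx hy => rw [hx, hy, add_zero]
  rw [key a, key b]

theorem A0_iso (A0 : Set P2 → Subgroup (Equiv.Perm P2)) (h : IsWind A0)
    (hloc : ∀ n, 1 ≤ n → n ≤ 5 → Subsingleton (HC (V0 A0 h).Obj n)) (a : Sq) (n : ℕ)
    (hn : n ≤ 4) : Function.Bijective (HCmap (sgIncl (A0_le_Gc A0 h a)) n) := by
  have h1 : ∀ {x : DG.Ob} {n : Equiv.Perm P2}, n ∈ A0 (Sq.set x) → DG.Adm x n x :=
    fun {_ _} hn => h.adm hn
  have h2 : ∀ {x y : DG.Ob} {g n : Equiv.Perm P2}, DG.Adm x g y → n ∈ A0 (Sq.set y) →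
      g⁻¹ * n * g ∈ A0 (Sq.set x) := fun {_ _ _ _} hg hn => h.conj _ _ _ _ hg.1 hg.2 hn
  have hle : ∀ x : DG.Ob, DG.N x ≤ A0 (Sq.set x) := fun _ => bot_le
  have hθ : DG.FibConst (fun x => A0 (Sq.set x)) h1 h2 hle a := fibA A0 h a
  have hsub : ∀ p, p ≤ 5 → Subsingleton ((relC (ptF (⟨a⟩ : (V0 A0 h).Obj))).H p) := by
    intro p hp
    cases p with
    | zero => exact relPt_zero _ (v0_conn A0 h)
    | succ p =>
      have h3 : Subsingleton (HC (V0 A0 h).Obj (p + 1)) := hloc (p + 1) (by omega) hp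
      exact (relPt (⟨a⟩ : (V0 A0 h).Obj) p).2.subsingleton
  have hrel : ∀ m, m ≤ 5 → Subsingleton
      ((relC (DG.fibIncl (fun x => A0 (Sq.set x)) h1 hle a)).H m) := by
    intro m hm
    have h3 := (rel_act DG (fun x => A0 (Sq.set x)) h1 h2 hle a hθ Serre.triv m).1
      (fun p q hq hpq => tens_sub' (hsub p (by omega)))
    have h4 : Subsingleton (LinearMap.ker
      ((DG.relActMap (fun x => A0 (Sq.set x)) h1 h2 hle a).H m)) := h3
    have h5 := hsub m hm
    refine ⟨fun x y => ?_⟩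
    have key : ∀ z : (relC (DG.fibIncl (fun x => A0 (Sq.set x)) h1 hle a)).H m, z = 0 := by
      intro z
      have h6 : z ∈ LinearMap.ker ((DG.relActMap (fun x => A0 (Sq.set x)) h1 h2 hle a).H m) :=
        LinearMap.mem_ker.2 (h5.elim _ _)
      have h7 : (⟨z, h6⟩ : LinearMap.ker
        ((DG.relActMap (fun x => A0 (Sq.set x)) h1 h2 hle a).H m)) = 0 := Subsingleton.elim _ _
      exact congrArg Subtype.val h7
    rw [key x, key y]
  have h8 := les_bij' (DG.fibIncl (fun x => A0 (Sq.set x)) h1 hle a)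
    (fibIncl_inj DG (fun x => A0 (Sq.set x)) h1 hle a) n (hrel n (by omega)) (hrel (n + 1) (by omega))
  let j : (sg (A0 a.set)).Obj ⥤ DG.Obj := DG.fibIncl (fun x => A0 (Sq.set x)) h1 hle a
  have e : sgIncl (A0_le_Gc A0 h a) = j ⋙ dgG := by
    refine CategoryTheory.Functor.hext (fun x => rfl) fun x y f => ?_
    induction f using ActCat.ind with
    | h g hg => rfl
  have e2 : (HCmap (sgIncl (A0_le_Gc A0 h a)) n : _ → _) = (HCmap dgG n) ∘ (HCmap j n) := by
    funext x
    rw [e]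
    exact HCmap_comp _ _ n x
  rw [e2]
  exact (dgG_hiso n).comp h8

end C715
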