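import Pool.Agent.Work.MP_c71557_gt.V.FibA
import Pool.Agent.Work.MP_c71557_gt.H.H1

set_option autoImplicit false
set_option linter.unusedVariables false

/-!
# MP_c71557_gt, module V/Xi: `A0 a / E a` is abelian and torsion (S-M)

* `xi_normal`: `E_conj` with `Set.MapsTo g a.set a.set` (`g` is the identity near `a.set`).
* `xi_comm`: `g1, g2 ∈ A0 a.set`.  `g1` is the identity on an open `N ⊇ a.set`; `b ⊇ a` a square containing
  the support of `g2` (`Sq_supp`); `push`: `k ∈ E a.set`, `b.set ⊆ k '' N`.  `k g1 k⁻¹` is the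
  identity on `k '' N`, so it commutes with `g2` (`comm_of_supp`).  Modulo the normal subgroup
  `E a.set` of `A0 a.set`, `g1 ≡ k g1 k⁻¹`; so `g1⁻¹ g2⁻¹ g1 g2 ∈ E a.set`.
* `xi_tor`: `g ∈ A0 a.set`; `b ⊇ supp g` a square; `shrink_ball` with `U = univ`, `q` a point with
  `q.1 = p.1 + r + 2`, radius `1` gives `k ∈ Gc` with `k (b) ⊆ ball q 1`, so
  `k g k⁻¹ ∈ GU (ball q 1) ≤ E a.set` (`GU_le_E`).  In `H_1 (sg Gc)`: `lp g = lp (k g k⁻¹)`
  (`lp_conj`, arrow `k`); by injectivity of `H_1 (sg A0) → H_1 (sg Gc)` (`lp_map`) the same holds in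
  `H_1 (sg (A0 a.set))`, and then in `H_1 (grp (A0 a.set) (E a.set))` (apply the functor
  `sgToGrp`), where `lp (k g k⁻¹) = lp (𝟙) = 0` (`lp_comp` for identities).  `lp_torsion`.
-/

namespace C715

open CategoryTheory ActCat

theorem xi_normal (A0 : Set P2 → Subgroup (Equiv.Perm P2)) (h : IsWind A0) (a : Sq) :
    ∀ g ∈ A0 a.set, ∀ n ∈ E a.set, g⁻¹ * n * g ∈ E a.set := by
  intro g hg n hn
  exact E_conj (A0_le_Gc A0 h a hg) (h.adm hg).2 hn

theorem xi_comm (A0 : Set P2 → Subgroup (Equiv.Perm P2)) (h : IsWind A0) (a : Sq) :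
    ∀ g1 ∈ A0 a.set, ∀ g2 ∈ A0 a.set, g1⁻¹ * g2⁻¹ * g1 * g2 ∈ E a.set := by
  intro g1 hg1 g2 hg2
  obtain ⟨N, hN, haN, hN1⟩ := mem_nhdsSet_iff_exists.1 (h.le a hg1).2
  obtain ⟨b, hab, hb⟩ := Sq_supp a {g2} (Set.finite_singleton _) (by
    rintro _ rfl
    exact A0_le_Gc A0 h a hg2)
  obtain ⟨k, hk, hbk⟩ := push a b N hN haN hab
  have hkA : k ∈ A0 a.set := E_le_A0 A0 h a hk
  have hkG : k ∈ Gc := A0_le_Gc A0 h a hkA
  have hnr : k * g1 * k⁻¹ ∈ Nr b.set := by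
    refine ⟨Gc.mul_mem (Gc.mul_mem hkG (A0_le_Gc A0 h a hg1)) (Gc.inv_mem hkG), ?_⟩
    refine mem_nhdsSet_iff_exists.2 ⟨k '' N, ?_, hbk, ?_⟩
    · have e : k '' N = k.symm ⁻¹' N := Equiv.image_eq_preimage_symm k N
      rw [e]
      exact hN.preimage (Gc_cont_symm hkG)
    · rintro _ ⟨x, hx, rfl⟩
      show (k * g1 * k⁻¹) (k x) = k x
      rw [Equiv.Perm.mul_apply, Equiv.Perm.mul_apply]
      have e : k⁻¹ (k x) = x := k.symm_apply_apply x
      rw [e]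
      exact congrArg k (hN1 hx)
  have hcomm := comm_of_supp b g2 (k * g1 * k⁻¹) (hb g2 rfl) hnr
  have he : k * (g1⁻¹ * k⁻¹ * g1) ∈ E a.set :=
    (E a.set).mul_mem hk (xi_normal A0 h a g1 hg1 _ ((E a.set).inv_mem hk))
  set g' := k * g1 * k⁻¹ with hg'
  set e := k * (g1⁻¹ * k⁻¹ * g1) with hedef
  have e1 : g1 = g' * e := by rw [hg', hedef]; group
  have e2 : g'⁻¹ * g2⁻¹ * g' * g2 = 1 := by
    have : g' * g2 = g2 * g' := hcomm.symm
    calc g'⁻¹ * g2⁻¹ * g' * g2 = g'⁻¹ * g2⁻¹ * (g' * g2) := by group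
      _ = g'⁻¹ * g2⁻¹ * (g2 * g') := by rw [this]
      _ = 1 := by group
  have e3 : g1⁻¹ * g2⁻¹ * g1 * g2 = e⁻¹ * (g'⁻¹ * g2⁻¹ * g' * g2) * (g2⁻¹ * e * g2) := by
    rw [e1]; group
  rw [e3, e2, mul_one]
  exact (E a.set).mul_mem ((E a.set).inv_mem he) (xi_normal A0 h a g2 hg2 _ he)

private theorem lp_one {C : Type} [SmallCategory C] (a : C) : lp (𝟙 a) = 0 := by
  have h := lp_comp (𝟙 a) (𝟙 a)
  rw [Category.comp_id] at h
  simpa using h

theorem xi_tor (A0 : Set P2 → Subgroup (Equiv.Perm P2)) (h : IsWind A0) (a : Sq)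
    (hinj : Function.Injective (HCmap (sgIncl (A0_le_Gc A0 h a)) 1)) :
    ∀ g ∈ A0 a.set, ∃ m : ℕ, 1 ≤ m ∧ g ^ m ∈ E a.set := by
  intro g hg
  have hgG : g ∈ Gc := A0_le_Gc A0 h a hg
  obtain ⟨b, -, hb⟩ := Sq_supp a {g} (Set.finite_singleton _) (by
    rintro _ rfl
    exact hgG)
  set q : P2 := (a.1.1.1 + a.1.2 + 2, a.1.1.2) with hq
  obtain ⟨k, hk, hkb⟩ := shrink_ball Set.univ b.set isOpen_univ convex_univ
    (isCompact_closedBall _ _) (Set.subset_univ _) q (Set.mem_univ _) 1 one_pos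
  have hkG : k ∈ Gc := GU_le _ hk
  have hdis : Disjoint (Metric.ball q 1) a.set := by
    rw [Set.disjoint_left]
    intro x hx hxa
    have h1 : dist x q < 1 := hx
    have h2 : dist x a.1.1 ≤ a.1.2 := hxa
    have h3 : |x.1 - q.1| ≤ dist x q := by
      rw [Prod.dist_eq]
      exact le_max_left _ _
    have h4 : |x.1 - a.1.1.1| ≤ dist x a.1.1 := by
      rw [Prod.dist_eq]
      exact le_max_left _ _
    have h5 := abs_lt.1 (h3.trans_lt h1)
    have h6 := abs_le.1 (h4.trans h2)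
    have h7 : q.1 = a.1.1.1 + a.1.2 + 2 := rfl
    rw [h7] at h5
    linarith [h5.1, h6.2]
  have hg'E : k * g * k⁻¹ ∈ E a.set := by
    refine GU_le_E (Metric.ball q 1) a.set Metric.isOpen_ball (convex_ball _ _) hdis ?_
    refine ⟨Gc.mul_mem (Gc.mul_mem hkG hgG) (Gc.inv_mem hkG), k '' b.set, ?_,
      (isCompact_closedBall _ _).image (Gc_cont hkG), ?_⟩
    · rintro _ ⟨x, hx, rfl⟩
      exact hkb x hx
    · intro x hx
      rw [Equiv.Perm.mul_apply, Equiv.Perm.mul_apply]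
      have h1 : k⁻¹ x ∉ b.set := fun h2 => hx ⟨k⁻¹ x, h2, k.apply_symm_apply x⟩
      rw [hb g rfl _ h1]
      exact k.apply_symm_apply x
  have hg'A : k * g * k⁻¹ ∈ A0 a.set := E_le_A0 A0 h a hg'E
  have hg'G : k * g * k⁻¹ ∈ Gc := A0_le_Gc A0 h a hg'A
  -- in `H_1 (sg Gc)`
  have e1 : lp ((sg Gc).hom (a := ()) (b := ()) g hgG) =
      lp ((sg Gc).hom (a := ()) (b := ()) (k * g * k⁻¹) hg'G) := by
    refine lp_conj _ _ ((sg Gc).hom (a := ()) (b := ()) k hkG) ?_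
    refine (hom_eq (A := sg Gc)).2 ?_
    change (k * g)⁻¹ * (k * g * k⁻¹ * k) ∈ (⊥ : Subgroup (Equiv.Perm P2))
    rw [Subgroup.mem_bot]
    group
  have e2 : lp ((sg (A0 a.set)).hom (a := ()) (b := ()) g hg) =
      lp ((sg (A0 a.set)).hom (a := ()) (b := ()) (k * g * k⁻¹) hg'A) := by
    apply hinj
    rw [lp_map, lp_map]
    exact e1
  have e3 := congrArg (HCmap (sgToGrp (A0 a.set) (A0 a.set) (E a.set) (E_le_A0 A0 h a)
    (xi_normal A0 h a) le_rfl) 1) e2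
  rw [lp_map, lp_map] at e3
  refine lp_torsion (A0 a.set) (E a.set) (E_le_A0 A0 h a) (xi_normal A0 h a) (xi_comm A0 h a) g
    hg ?_
  refine e3.trans ?_
  have e4 : (sgToGrp (A0 a.set) (A0 a.set) (E a.set) (E_le_A0 A0 h a)
      (xi_normal A0 h a) le_rfl).map ((sg (A0 a.set)).hom (a := ()) (b := ()) (k * g * k⁻¹) hg'A) =
      𝟙 _ := by
    refine (cl_eq (A := grp (A0 a.set) (E a.set) (E_le_A0 A0 h a) (xi_normal A0 h a))
      (a := ()) (b := ())).2 ?_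
    change (k * g * k⁻¹)⁻¹ * 1 ∈ E a.set
    rw [mul_one]
    exact (E a.set).inv_mem hg'E
  rw [e4]
  exact lp_one _

end C715
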