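import Pool.Agent.Work.MP_c71557_gt.V.EA
import Pool.Agent.Work.MP_c71557_gt.V.Xi
import Pool.Agent.Work.MP_c71557_gt.V.A0iso

set_option autoImplicit false
set_option linter.unusedVariables false

/-!
# MP_c71557_gt, module V/Einj: `H_n (E a) → H_n (Gc)` is bijective for `n ≤ 4`
-/

namespace C715

open CategoryTheory ActCat

theorem E_iso (A0 : Set P2 → Subgroup (Equiv.Perm P2)) (h : IsWind A0)
    (hloc : ∀ n, 1 ≤ n → n ≤ 5 → Subsingleton (HC (V0 A0 h).Obj n)) (a : Sq) (n : ℕ)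
    (hn : n ≤ 4) : Function.Bijective (HCmap (sgIncl (E_le_Gc a.set)) n) := by
  have h1 := A0_iso A0 h hloc a
  have h2 := EA_hiso A0 h a (xi_normal A0 h a) (xi_comm A0 h a)
    (xi_tor A0 h a (h1 1 (by norm_num)).1)
  have h3 : sgIncl (E_le_Gc a.set) = sgIncl (E_le_A0 A0 h a) ⋙ sgIncl (A0_le_Gc A0 h a) := by
    refine CategoryTheory.Functor.hext (fun x => rfl) fun x y f => ?_
    induction f using ActCat.ind with
    | h g hg => rfl
  have h4 : (HCmap (sgIncl (E_le_Gc a.set)) n : _ → _) =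
      (HCmap (sgIncl (A0_le_Gc A0 h a)) n) ∘ (HCmap (sgIncl (E_le_A0 A0 h a)) n) := by
    funext x
    rw [h3]
    exact HCmap_comp _ _ n x
  rw [h4]
  exact (h1 n hn).comp (h2 n)

end C715
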