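import Pool.Agent.Work.MP_c71557_gt.V.FibA
import Pool.Agent.Work.MP_c71557_gt.H.TorAb
import Pool.Agent.Work.MP_c71557_gt.H.RelPt

set_option autoImplicit false
set_option linter.unusedVariables false

/-!
# MP_c71557_gt, module V/EA: `E a → A0 a` is a homology isomorphism (M)

Hypotheses: `E a` normal in `A0 a`, the quotient abelian and torsion.
PROOF.  `tor_acy`: `grp (A0 a) (E a)` is acyclic.  Apply `rel_act` to `A = sg (A0 a.set)` (one object),
`N' _ = E a.set`; `A.enl N'` is `grp (A0 a) (E a)` (same data), `fib () = sg (E a)` (same data).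
`FibConst`: one object; take `θ = id`; for `g ∈ A0 a.set` the functor `fibConj g` acts trivially on
`H_q (sg (E a.set))`: choose a square `b ⊇ a` containing the support of `g` (`Sq_supp`); every
`x ∈ H_q (sg (E a.set))` comes from `H_q (sg (E b.set))` (`E_surj`), and `g` commutes with `E b.set`
(`comm_of_supp`, `E_le_Nr`), so the functors `sgIncl` and `sgIncl ⋙ fibConj g` agree.
The base is acyclic, so `H_p (base, pt) = 0` for all `p` (`relPt`, `relPt_zero`), all tensor products
vanish, `relC (fibIncl)` has zero homology in all degrees and the long exact sequence gives the claim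
(`Cx.coker_SES`, `fibIncl_inj`).
-/

namespace C715

open CategoryTheory ActCat

private theorem les_bij {K C : Type} [SmallCategory K] [SmallCategory C] (j : K ⥤ C)
    (hj : ∀ n, Function.Injective (fun σ : Sx K n => σ.push j)) (n : ℕ)
    (h1 : Subsingleton ((relC j).H n)) (h2 : Subsingleton ((relC j).H (n + 1))) :
    Function.Bijective (HCmap j n) := by
  have hs := Cx.coker_SES (NCmap j) (NCmap_inj j hj)
  constructor
  · rw [injective_iff_map_eq_zero]
    intro x hx
    obtain ⟨y, rfl⟩ := (Cx.exact_left hs n x).1 hx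
    have : y = 0 := Subsingleton.elim _ _
    rw [this, map_zero]
  · intro y
    exact (Cx.exact_mid hs n y).1 (Subsingleton.elim _ _)

private theorem tens_sub {V W : Type} [AddCommGroup V] [Module ℚ V] [AddCommGroup W] [Module ℚ W]
    (h : Subsingleton V) : Subsingleton (TensorProduct ℚ V W) := by
  refine ⟨fun a b => ?_⟩
  have key : ∀ x : TensorProduct ℚ V W, x = 0 := by
    intro x
    induction x using TensorProduct.induction_on with
    | zero => rfl
    | tmul v w => rw [Subsingleton.elim v 0, TensorProduct.zero_tmul]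
    | add x y hx hy => rw [hx, hy, add_zero]
  rw [key a, key b]

theorem EA_hiso (A0 : Set P2 → Subgroup (Equiv.Perm P2)) (h : IsWind A0) (a : Sq)
    (hn : ∀ g ∈ A0 a.set, ∀ n ∈ E a.set, g⁻¹ * n * g ∈ E a.set)
    (hab : ∀ g1 ∈ A0 a.set, ∀ g2 ∈ A0 a.set, g1⁻¹ * g2⁻¹ * g1 * g2 ∈ E a.set)
    (htor : ∀ g ∈ A0 a.set, ∃ m : ℕ, 1 ≤ m ∧ g ^ m ∈ E a.set) :
    HIso (sgIncl (E_le_A0 A0 h a)) := by
  have hacy : Acy (grp (A0 a.set) (E a.set) (E_le_A0 A0 h a) hn).Obj :=
    tor_acy _ _ (E_le_A0 A0 h a) hn hab htor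
  let A : ActCat (Equiv.Perm P2) := sg (A0 a.set)
  let N' : A.Ob → Subgroup (Equiv.Perm P2) := fun _ => E a.set
  have h1 : ∀ {x : A.Ob} {n : Equiv.Perm P2}, n ∈ N' x → A.Adm x n x :=
    fun {_ n} hm => E_le_A0 A0 h a hm
  have h2 : ∀ {x y : A.Ob} {g n : Equiv.Perm P2}, A.Adm x g y → n ∈ N' y → g⁻¹ * n * g ∈ N' x :=
    fun {_ _ g n} hg hm => hn g hg n hm
  have hle : ∀ x, A.N x ≤ N' x := fun _ => bot_le
  have hθ : A.FibConst N' h1 h2 hle () := by
    intro q
    refine ⟨fun _ => LinearEquiv.refl ℚ _, fun _ => rfl, fun x y g hg z => ?_⟩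
    have hg' : g ∈ A0 a.set := hg
    obtain ⟨b, hab', hb⟩ := Sq_supp a {g} (Set.finite_singleton _) (by
      rintro _ rfl
      exact A0_le_Gc A0 h a hg')
    let c : (sg (E a.set)).Obj ⥤ (sg (E a.set)).Obj := A.fibConj N' h1 h2 hle hg
    have e : sgIncl (E_anti hab') ⋙ c = sgIncl (E_anti hab') := by
      refine CategoryTheory.Functor.hext (fun x => rfl) fun x y f => ?_
      induction f using ActCat.ind with
      | h n hn =>
        refine heq_of_eq (cl_eq.2 ?_)
        change (g⁻¹ * n * g⁻¹⁻¹)⁻¹ * n ∈ (⊥ : Subgroup (Equiv.Perm P2))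
        have e1 := comm_of_supp b g n (hb g rfl) (E_le_Nr _ hn)
        have e2 : g⁻¹ * n * g⁻¹⁻¹ = n := by rw [inv_inv, mul_assoc, ← e1, inv_mul_cancel_left]
        rw [e2, inv_mul_cancel]
        exact Subgroup.one_mem _
    have key : ∀ z : HC (sg (E a.set)).Obj q, HCmap c q z = z := by
      intro z
      obtain ⟨w, rfl⟩ := E_surj a b hab' q z
      rw [← HCmap_comp, e]
    exact key z
  have hsub : ∀ p, Subsingleton ((relC (ptF (⟨()⟩ : (A.enl N' h1 h2).Obj))).H p) := by
    intro p
    cases p with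
    | zero => exact relPt_zero _ hacy.2.1
    | succ p =>
      have h3 : Subsingleton (HC (A.enl N' h1 h2).Obj (p + 1)) := hacy.2.2 p
      exact (relPt (⟨()⟩ : (A.enl N' h1 h2).Obj) p).2.subsingleton
  have hrel : ∀ n, Subsingleton ((relC (A.fibIncl N' h1 hle ())).H n) := by
    intro n
    have h3 := (rel_act A N' h1 h2 hle () hθ Serre.triv n).1
      (fun p q _ _ => tens_sub (hsub p))
    have h4 : Subsingleton (LinearMap.ker ((A.relActMap N' h1 h2 hle ()).H n)) := h3
    have h5 := hsub n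
    refine ⟨fun x y => ?_⟩
    have key : ∀ z : (relC (A.fibIncl N' h1 hle ())).H n, z = 0 := by
      intro z
      have h6 : z ∈ LinearMap.ker ((A.relActMap N' h1 h2 hle ()).H n) :=
        LinearMap.mem_ker.2 (Subsingleton.elim _ _)
      have h7 : (⟨z, h6⟩ : LinearMap.ker ((A.relActMap N' h1 h2 hle ()).H n)) = 0 :=
        Subsingleton.elim _ _
      exact congrArg Subtype.val h7
    rw [key x, key y]
  intro n
  exact les_bij (A.fibIncl N' h1 hle ()) (fibIncl_inj A N' h1 hle ()) n (hrel n) (hrel (n + 1))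

end C715
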