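import Pool.Agent.Work.MP_c71557_gt.P.Frg
import Pool.Agent.Work.MP_c71557_gt.H.FibLoc
import Pool.Agent.Work.MP_c71557_gt.H.ConjIncl

set_option autoImplicit false
set_option linter.unusedVariables false

/-!
# MP_c71557_gt, module V/FibA: constant fibre homology for `DG → V0` (M)

`fibConst_trick'` with `A = DG`, `N' a = A0 a.set`:
* `hne`: `Sq_into`.
* `hsurj`: `a.set ⊆ c.set`; `fibConj 1 : fib c → fib a` is (up to the identification of `fib` with
  `sg (A0 _)`, `MulAut.conj 1⁻¹ = id`) the inclusion `sg (A0 c.set) → sg (A0 a.set)`.  Surjective on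
  homology by `conjIncl_surj`: `F ⊆ A0 a.set` finite; all `f ∈ F` are the identity on an open
  `N ⊇ a.set` (`h.le`, `Filter.Eventually`, `mem_nhdsSet_iff_exists`); `push` gives `k ∈ E a.set`
  (`⊆ A0 a.set` by `h.frag`) with `c.set ⊆ k '' N`; `k f k⁻¹` is the identity on the open set
  `k '' N ⊇ c.set`, so it is in `Nr c.set`, and it is in the group `A0 a.set`, hence in `A0 c.set` by
  `h.up`.
* `htrick`: given `g1, g2 : a → b` take `c ⊇ b` containing the supports of `g1`, `g2` (`Sq_supp`); then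
  `n ∈ A0 c.set ⊆ Nr c.set` commutes with `g1`, `g2` (`comm_of_supp`), so
  `g1⁻¹ n g1 = n = g2⁻¹ n g2`.
-/

namespace C715

open CategoryTheory ActCat

theorem E_le_A0 (A0 : Set P2 → Subgroup (Equiv.Perm P2)) (h : IsWind A0) (a : Sq) :
    E a.set ≤ A0 a.set := (Subgroup.closure_le _).2 fun _ hf => h.frag a _ hf

theorem A0_le_Gc (A0 : Set P2 → Subgroup (Equiv.Perm P2)) (h : IsWind A0) (a : Sq) :
    A0 a.set ≤ Gc := fun _ hf => (h.le a hf).1

/-- an element of `A0 a.set` is the identity on an open neighbourhood of `a.set`, uniformly for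
finite sets -/
private theorem common_nbhd (S : Set P2) (F : Set (Equiv.Perm P2)) (hF : F.Finite)
    (h : F ⊆ Nr S) : ∃ N : Set P2, IsOpen N ∧ S ⊆ N ∧ ∀ f ∈ F, ∀ x ∈ N, f x = x := by
  have h1 : ∀ᶠ x in nhdsSet S, ∀ f ∈ F, f x = x := by
    rw [Filter.eventually_all_finite hF]
    exact fun f hf => (h hf).2
  obtain ⟨N, hN, hSN, hNF⟩ := mem_nhdsSet_iff_exists.1 h1
  exact ⟨N, hN, hSN, fun f hf x hx => hNF hx f hf⟩

private theorem A0_anti (A0 : Set P2 → Subgroup (Equiv.Perm P2)) (h : IsWind A0) (a c : Sq)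
    (hac : Set.MapsTo (1 : Equiv.Perm P2) a.set c.set) : A0 c.set ≤ A0 a.set := by
  intro n hn
  have := h.conj a c 1 n Gc.one_mem hac hn
  simpa using this

private theorem move_in (A0 : Set P2 → Subgroup (Equiv.Perm P2)) (h : IsWind A0) (a c : Sq)
    (hac : a.set ⊆ c.set) (F : Set (Equiv.Perm P2)) (hF : F.Finite) (hFA : F ⊆ A0 a.set) :
    ∃ g ∈ A0 a.set, ∀ f ∈ F, g * f * g⁻¹ ∈ A0 c.set := by
  obtain ⟨N, hN, haN, hNF⟩ := common_nbhd a.set F hF (fun f hf => h.le a (hFA hf))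
  obtain ⟨k, hk, hck⟩ := push a c N hN haN hac
  have hkA : k ∈ A0 a.set := E_le_A0 A0 h a hk
  have hkG : k ∈ Gc := A0_le_Gc A0 h a hkA
  refine ⟨k, hkA, fun f hf => ?_⟩
  have hfA := hFA hf
  refine h.up a c _ hac ⟨?_, ?_⟩ ((A0 a.set).mul_mem ((A0 a.set).mul_mem hkA hfA)
    ((A0 a.set).inv_mem hkA))
  · exact Gc.mul_mem (Gc.mul_mem hkG (A0_le_Gc A0 h a hfA)) (Gc.inv_mem hkG)
  · refine mem_nhdsSet_iff_exists.2 ⟨k '' N, ?_, hck, ?_⟩
    · have e : k '' N = k.symm ⁻¹' N := Equiv.image_eq_preimage_symm k N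
      rw [e]
      exact hN.preimage (Gc_cont_symm hkG)
    · rintro _ ⟨x, hx, rfl⟩
      show (k * f * k⁻¹) (k x) = k x
      rw [Equiv.Perm.mul_apply, Equiv.Perm.mul_apply]
      have e : k⁻¹ (k x) = x := k.symm_apply_apply x
      rw [e, hNF f hf x hx]

theorem fibA (A0 : Set P2 → Subgroup (Equiv.Perm P2)) (h : IsWind A0) (a : Sq) :
    DG.FibConst (fun a => A0 a.set) (fun hn => h.adm hn)
      (fun hg hn => h.conj _ _ _ _ hg.1 hg.2 hn) (fun _ => bot_le) a := by
  refine fibConst_trick' DG (fun a => A0 a.set) (fun hn => h.adm hn)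
    (fun hg hn => h.conj _ _ _ _ hg.1 hg.2 hn) (fun _ => bot_le) a ?_ ?_ ?_
  · intro a b
    obtain ⟨g, hg, hgab⟩ := Sq_into a b
    exact ⟨g, hg, hgab⟩
  · intro a c hac q
    have hsub : a.set ⊆ c.set := fun x hx => hac.2 hx
    have hle : A0 c.set ≤ A0 a.set := A0_anti A0 h a c hac.2
    have h1 := conjIncl_surj hle (fun F hF hFA => move_in A0 h a c hsub F hF hFA) q
    have e : (DG.fibConj (fun a => A0 a.set) (fun hn => h.adm hn)
        (fun hg hn => h.conj _ _ _ _ hg.1 hg.2 hn) (fun _ => bot_le) hac :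
          (sg (A0 c.set)).Obj ⥤ (sg (A0 a.set)).Obj) = sgIncl hle := by
      refine CategoryTheory.Functor.hext (fun x => rfl) fun x y f => ?_
      induction f using ActCat.ind with
      | h g hg =>
        refine heq_of_eq (cl_eq.2 ?_)
        change ((1 : Equiv.Perm P2)⁻¹ * g * (1 : Equiv.Perm P2)⁻¹⁻¹)⁻¹ * g ∈
          (⊥ : Subgroup (Equiv.Perm P2))
        rw [Subgroup.mem_bot]
        group
    rw [← e] at h1
    exact h1
  · intro a b g1 g2 hg1 hg2
    obtain ⟨c, hbc, hc⟩ := Sq_supp b {g1, g2} (Set.toFinite _) (by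
      rintro g (rfl | rfl)
      · exact hg1.1
      · exact hg2.1)
    refine ⟨c, ⟨Gc.one_mem, fun x hx => hbc hx⟩, fun n hn => ?_⟩
    have hn' : n ∈ Nr c.set := h.le c hn
    have e1 := comm_of_supp c g1 n (hc g1 (Set.mem_insert _ _)) hn'
    have e2 := comm_of_supp c g2 n (hc g2 (Set.mem_insert_of_mem _ rfl)) hn'
    have e3 : g1⁻¹ * n * g1 = n := by rw [mul_assoc, ← e1, inv_mul_cancel_left]
    have e4 : g2⁻¹ * n * g2 = n := by rw [mul_assoc, ← e2, inv_mul_cancel_left]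
    rw [e3, e4, inv_mul_cancel]
    exact Subgroup.one_mem _

end C715
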